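import Pool.Agent.H936R2.Crit2

/-!
# Return sets of étale maps over `ℤ_p`, with one period for all maps and points (helper file)
-/

set_option autoImplicit false

namespace Pool.Agent.U100.KC

open MvPolynomial Pool.Agent.H936R2

theorem iter_per {α : Type} [Fintype α] (f : α → α) (x : α) :
    f^[(Fintype.card α).factorial] (f^[Fintype.card α] x) = f^[Fintype.card α] x := by
  classical
  obtain ⟨i, j, hij, h⟩ := Fintype.exists_ne_map_eq_of_card_lt
    (fun i : Fin (Fintype.card α + 1) => f^[(i : ℕ)] x) (by simp)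
  wlog hlt : (i : ℕ) < j generalizing i j
  · refine this j i hij.symm h.symm ?_
    have : (i : ℕ) ≠ j := fun h => hij (Fin.ext h)
    omega
  have hj := j.2
  have h1 : Function.IsPeriodicPt f ((j : ℕ) - i) (f^[(i : ℕ)] x) := by
    unfold Function.IsPeriodicPt Function.IsFixedPt
    rw [← Function.iterate_add_apply, Nat.sub_add_cancel hlt.le]
    exact h.symm
  have h2 := h1.apply_iterate (Fintype.card α - i)
  rw [← Function.iterate_add_apply, Nat.sub_add_cancel (by omega)] at h2
  have h3 : (j : ℕ) - i ∣ (Fintype.card α).factorial :=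
    Nat.dvd_factorial (by omega) (by omega)
  exact h2.trans_dvd h3

section

variable {ι : Type} [Fintype ι] [DecidableEq ι]

theorem itA_map {O O' : Type} [CommRing O] [CommRing O'] (φ : O →+* O') (F : ι → MvPolynomial ι O)
    (x : ι → O) (n : ℕ) :
    itA (fun i => map φ (F i)) (fun i => φ (x i)) n = φ.mapMatrix (itA F x n) := by
  induction n with
  | zero => simp [itA]
  | succ n ih =>
    simp only [itA]
    rw [ih, map_mul, pt_map, jac_map]

theorem itA_mul {O : Type} [CommRing O] (F : ι → MvPolynomial ι O) (x : ι → O) (k : ℕ)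
    (hk : (pt F)^[k] x = x) (m : ℕ) : itA F x (k * m) = itA F x k ^ m := by
  induction m with
  | zero => simp [itA]
  | succ m ih =>
    rw [Nat.mul_succ, itA_add, ih]
    have h1 : (pt F)^[k * m] x = x := by
      have h2 : Function.IsPeriodicPt (pt F) k x := hk
      exact h2.mul_const m
    rw [h1, pow_succ']

/-- **One period for all étale maps over `ℤ_p`.** -/
theorem arcZ (p : ℕ) [hp : Fact p.Prime] (ι : Type) [Fintype ι] [DecidableEq ι] :
    ∃ n₀ T : ℕ, 0 < T ∧ ∀ (F : ι → MvPolynomial ι ℤ_[p]) (b : ι → ℤ_[p]),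
      (∀ n, (jac (fun i => map PadicInt.toZMod (F i))
        (fun i => PadicInt.toZMod ((pt F)^[n] b i))).det ≠ 0) →
      ∀ (r : ℕ) (P : MvPolynomial ι (PadicAlgCl p)),
        {m : ℕ | eval (fun i => algebraMap ℚ_[p] (PadicAlgCl p)
          (((pt F)^[n₀ + r + T * m] b i : ℤ_[p]) : ℚ_[p])) P = 0}.Infinite →
        ∀ m : ℕ, eval (fun i => algebraMap ℚ_[p] (PadicAlgCl p)
          (((pt F)^[n₀ + r + T * m] b i : ℤ_[p]) : ℚ_[p])) P = 0 := by
  classical
  have : NeZero (p ^ 4) := ⟨pow_ne_zero _ hp.out.ne_zero⟩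
  set n₀ := Fintype.card (ι → ZMod (p ^ 4)) with hn₀
  set g := Nat.card (Matrix ι ι (ZMod (p ^ 4)))ˣ with hg
  have hg0 : 0 < g := Nat.card_pos
  refine ⟨n₀, n₀.factorial * g, Nat.mul_pos (Nat.factorial_pos _) hg0, ?_⟩
  intro F b hdet r P hinf
  -- the Jacobian matrices along the orbit are invertible
  have hunit : ∀ n, IsUnit (jac F ((pt F)^[n] b)).det := by
    intro n
    have e4 := jac_map (PadicInt.toZMod : ℤ_[p] →+* ZMod p) F ((pt F)^[n] b)
    have h6 := hdet n
    rw [e4, ← RingHom.map_det] at h6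
    by_contra hnu
    apply h6
    have h7 : (jac F ((pt F)^[n] b)).det ∈ IsLocalRing.maximalIdeal ℤ_[p] := by
      rw [IsLocalRing.mem_maximalIdeal]
      exact hnu
    rw [← PadicInt.ker_toZMod] at h7
    exact h7
  set φ : ℤ_[p] →+* ZMod (p ^ 4) := PadicInt.toZModPow 4 with hφ
  have hker : ∀ x y : ℤ_[p], φ x = φ y → ∃ z, x = y + (p : ℤ_[p]) ^ 4 * z := by
    intro x y h
    have h1 : x - y ∈ RingHom.ker φ := by
      rw [RingHom.mem_ker, map_sub, h, sub_self]
    rw [hφ, PadicInt.ker_toZModPow, Ideal.mem_span_singleton'] at h1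
    obtain ⟨z, hz⟩ := h1
    exact ⟨z, by rw [mul_comm, hz]; ring⟩
  set F4 : ι → MvPolynomial ι (ZMod (p ^ 4)) := fun i => map φ (F i) with hF4
  set b₀ : ι → ℤ_[p] := (pt F)^[n₀] b with hb₀
  set c : ι → ZMod (p ^ 4) := fun i => φ (b₀ i) with hc
  have hc1 : c = (pt F4)^[n₀] (fun i => φ (b i)) := by
    rw [hF4, pt_map]
  have hper : (pt F4)^[n₀.factorial] c = c := by
    rw [hc1, hn₀]
    exact iter_per _ _
  set T := n₀.factorial * g with hT
  have hperT : (pt F4)^[T] c = c := by
    have h2 : Function.IsPeriodicPt (pt F4) n₀.factorial c := hper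
    exact h2.mul_const g
  have hA1 : itA F4 c n₀.factorial = φ.mapMatrix (itA F b₀ n₀.factorial) := itA_map φ F b₀ _
  have hAu : IsUnit (itA F4 c n₀.factorial) := by
    rw [Matrix.isUnit_iff_isUnit_det, hA1, ← RingHom.map_det]
    refine (isUnit_det_itA F b₀ (fun n => ?_) _).map φ
    rw [hb₀, ← Function.iterate_add_apply]
    exact hunit _
  have hone : itA F4 c T = 1 := by
    rw [hT, itA_mul F4 c _ hper]
    obtain ⟨u, hu⟩ := hAu
    rw [← hu, ← Units.val_pow_eq_pow_val, hg, pow_card_eq_one', Units.val_one]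
  have hA2 : ∀ i j, ∃ z, itA F b₀ T i j = (1 : Matrix ι ι ℤ_[p]) i j + (p : ℤ_[p]) ^ 4 * z := by
    intro i j
    apply hker
    have h1 := itA_map φ F b₀ T
    have h2 : itA (fun i => map φ (F i)) (fun i => φ (b₀ i)) T = 1 := hone
    rw [h2] at h1
    have h3 := congrFun (congrFun h1 i) j
    simp only [RingHom.mapMatrix_apply, Matrix.map_apply] at h3
    rw [← h3, Matrix.one_apply, Matrix.one_apply]
    split_ifs
    · rw [map_one]
    · rw [map_zero]
  have hb2 : ∀ i, ∃ z, (pt F)^[T] b₀ i = b₀ i + (p : ℤ_[p]) ^ 4 * z := by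
    intro i
    apply hker
    have h1 := pt_map φ F b₀ T
    have h2 : (pt fun i => map φ (F i))^[T] (fun i => φ (b₀ i)) = fun i => φ (b₀ i) := hperT
    rw [h2] at h1
    exact (congrFun h1 i).symm
  choose B hB using hA2
  choose v hv using hb2
  -- the embedding in the unit ball
  have hnorm : ∀ x : ℚ_[p], ‖algebraMap ℚ_[p] (PadicAlgCl p) x‖ = ‖x‖ := fun x => by
    simp
  obtain ⟨ψ, hψ⟩ : ∃ ψ : ℤ_[p] →+* unitBall (PadicAlgCl p), ∀ x : ℤ_[p],
      ((ψ x : unitBall (PadicAlgCl p)) : PadicAlgCl p) =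
        algebraMap ℚ_[p] (PadicAlgCl p) (x : ℚ_[p]) := by
    refine ⟨((algebraMap ℚ_[p] (PadicAlgCl p)).comp (algebraMap ℤ_[p] ℚ_[p])).codRestrict _ (by
      intro x
      change ‖algebraMap ℚ_[p] (PadicAlgCl p) (x : ℚ_[p])‖ ≤ 1
      rw [hnorm]
      exact x.2), fun x => rfl⟩
  have hpK : ‖(p : PadicAlgCl p)‖ < 1 := norm_p_lt_one p
  have hc := arc_core p hpK (fun i => map ψ (F i)) (fun i => ψ (b₀ i)) T (fun i => ψ (v i))
    (Matrix.of fun i j => (p : unitBall (PadicAlgCl p)) ^ 2 * ψ (B i j)) (by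
      intro i
      rw [pt_map]
      show ψ ((pt F)^[T] b₀ i) = _
      rw [hv, map_add, map_mul, map_pow, map_natCast]
      ring) (by
      intro i j
      rw [itA_map]
      simp only [RingHom.mapMatrix_apply, Matrix.map_apply, Matrix.of_apply]
      rw [hB, map_add, map_mul, map_pow, map_natCast, Matrix.one_apply, Matrix.one_apply]
      split_ifs
      · rw [map_one]; ring
      · rw [map_zero]; ring) r P
  have he : ∀ m, (fun i => (((pt fun i => map ψ (F i))^[T * m + r] (fun i => ψ (b₀ i)) i :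
      unitBall (PadicAlgCl p)) : PadicAlgCl p)) =
      fun i => algebraMap ℚ_[p] (PadicAlgCl p)
          (((pt F)^[n₀ + r + T * m] b i : ℤ_[p]) : ℚ_[p]) := by
    intro m
    rw [pt_map]
    funext i
    rw [hψ, hb₀, ← Function.iterate_add_apply]
    have : T * m + r + n₀ = n₀ + r + T * m := by ring
    rw [this]
  simp only [he] at hc
  exact hc hinf

end

/-- Combinatorial packaging, with the given period. -/
theorem exists_sets (Z : Set ℕ) (n₀ T : ℕ) (hT : 0 < T)
    (h : ∀ r, {t : ℕ | n₀ + r + T * t ∈ Z}.Infinite → ∀ t, n₀ + r + T * t ∈ Z) :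
    ∃ A B : Finset ℕ, Z = {n : ℕ | n ∈ A ∨ (n₀ ≤ n ∧ n % T ∈ B)} := by
  classical
  let B : Finset ℕ := (Finset.range T).filter fun s => {n : ℕ | n ∈ Z ∧ n % T = s}.Infinite
  have hB : ∀ s ∈ B, ∀ n, n₀ ≤ n → n % T = s → n ∈ Z := by
    intro s hs n hn hns
    simp only [B, Finset.mem_filter, Finset.mem_range] at hs
    obtain ⟨r, hr⟩ : ∃ r, n = n₀ + r := ⟨n - n₀, by omega⟩
    have h1 := h (r % T) (by
      intro hfin
      apply hs.2
      refine ((Set.finite_lt_nat n₀).union (hfin.image fun t => n₀ + r % T + T * t)).subset ?_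
      rintro m ⟨hm, hms⟩
      by_cases hlt : m < n₀
      · exact Or.inl hlt
      · right
        have e1 : m % T = n % T := by rw [hms, hns]
        have e2 : (m - n₀) % T = r % T := by
          have e3 : n₀ + (m - n₀) ≡ n₀ + r [MOD T] := by
            rw [← hr, Nat.add_sub_cancel' (by omega)]
            exact e1
          exact Nat.ModEq.add_left_cancel' n₀ e3
        have e4 := Nat.mod_add_div (m - n₀) T
        refine ⟨(m - n₀) / T, ?_, ?_⟩
        · rw [Set.mem_ofPred_eq]
          have : n₀ + r % T + T * ((m - n₀) / T) = m := by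
            rw [← e2]
            omega
          rw [this]
          exact hm
        · show n₀ + r % T + T * ((m - n₀) / T) = m
          rw [← e2]
          omega) (r / T)
    have h2 : n₀ + r % T + T * (r / T) = n := by
      have := Nat.mod_add_div r T
      omega
    rwa [h2] at h1
  have hfin : {n | n ∈ Z ∧ ¬ (n₀ ≤ n ∧ n % T ∈ B)}.Finite := by
    have h1 : {n | n ∈ Z ∧ ¬ (n₀ ≤ n ∧ n % T ∈ B)} ⊆ {n | n < n₀} ∪
        ⋃ s ∈ (Finset.range T).filter (fun s => s ∉ B), {n | n ∈ Z ∧ n % T = s} := by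
      rintro n ⟨hn, hn2⟩
      by_cases hlt : n < n₀
      · exact Or.inl hlt
      · right
        rw [Set.mem_iUnion₂]
        refine ⟨n % T, ?_, hn, rfl⟩
        rw [Finset.mem_filter, Finset.mem_range]
        exact ⟨Nat.mod_lt _ hT, fun h => hn2 ⟨by omega, h⟩⟩
    refine ((Set.finite_lt_nat n₀).union ?_).subset h1
    refine Set.Finite.biUnion (Finset.finite_toSet _) fun s hs => ?_
    rw [Finset.mem_coe, Finset.mem_filter, Finset.mem_range] at hs
    by_contra hinf
    exact hs.2 (Finset.mem_filter.2 ⟨Finset.mem_range.2 hs.1, hinf⟩)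
  refine ⟨hfin.toFinset, B, ?_⟩
  ext n
  rw [Set.mem_ofPred_eq, Set.Finite.mem_toFinset]
  constructor
  · intro hn
    by_cases hc : n₀ ≤ n ∧ n % T ∈ B
    · exact Or.inr hc
    · exact Or.inl ⟨hn, hc⟩
  · rintro (hn | ⟨h1, h2⟩)
    · exact hn.1
    · exact hB _ h2 n h1 rfl

end Pool.Agent.U100.KC
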