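import Pool.Agent.U100.DM.Null

/-!
# Pronull sets: binary forms without zeros modulo primes of degree one of a number field
(helper file)
-/

set_option autoImplicit false

namespace Pool.Agent.U100.KC

open Pool.Agent.N24.RW (ProNull crit clo)
open Pool.Agent.TH838.DS (uu ww exists_vec card_A card_Om po po_injective natDegree_po uu_some
  uu_none count_lin)
open Pool.Agent.U100.DM (Pr not_summable)

/-- Indices of the coefficients of `k` binary forms, that of index `j` being of degree `e j`. -/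
abbrev Jdx (k : ℕ) (e : Fin k → ℕ) : Type := Σ j : Fin k, Fin (e j + 1)

section

variable {p : ℕ} [Fact p.Prime]

theorem coeff_po {e : ℕ} (a : Fin (e + 1) → ZMod p) (n : ℕ) :
    (po a).coeff n = if h : n < e + 1 then a ⟨n, h⟩ else 0 := by
  unfold po
  rw [Polynomial.finsetSum_coeff]
  simp only [Polynomial.coeff_C_mul, Polynomial.coeff_X_pow, mul_ite, mul_one, mul_zero]
  split_ifs with h
  · rw [Finset.sum_eq_single ⟨n, h⟩]
    · simp
    · intro b _ hb
      rw [if_neg]
      intro h2
      exact hb (Fin.ext h2.symm)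
    · simp
  · apply Finset.sum_eq_zero
    intro b _
    rw [if_neg]
    have := b.2
    omega

theorem zeros_form {e : ℕ} (he : 1 ≤ e) (a : Fin (e + 1) → ZMod p) (ha : a ≠ 0) :
    Nat.card {x : Option (ZMod p) // uu x a = 0} ≤ e := by
  classical
  have h0 : po a ≠ 0 := by
    intro h
    apply ha
    apply po_injective
    rw [h]
    unfold po
    simp
  rw [Nat.card_eq_fintype_card, Fintype.card_subtype]
  have hr := Polynomial.card_roots' (po a)
  have hr2 := Multiset.toFinset_card_le (po a).roots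
  have hsome : ∀ t : ZMod p, uu (some t) a = 0 → t ∈ (po a).roots.toFinset := by
    intro t ht
    rw [Multiset.mem_toFinset, Polynomial.mem_roots h0, Polynomial.IsRoot, ← uu_some, ht]
  by_cases hl : a (Fin.last e) = 0
  · have hdeg : (po a).natDegree ≤ e - 1 := by
      rw [Polynomial.natDegree_le_iff_coeff_eq_zero]
      intro n hn
      rw [coeff_po]
      split_ifs with h
      · have : (⟨n, h⟩ : Fin (e + 1)) = Fin.last e := by
          apply Fin.ext
          rw [Fin.val_last]
          show n = e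
          omega
        rw [this, hl]
      · rfl
    have h2 : (Finset.univ.filter fun x : Option (ZMod p) => uu x a = 0) ⊆
        insert none ((po a).roots.toFinset.map Function.Embedding.some) := by
      intro x hx
      simp only [Finset.mem_filter, Finset.mem_univ, true_and] at hx
      cases x with
      | none => exact Finset.mem_insert_self _ _
      | some t =>
        apply Finset.mem_insert_of_mem
        rw [Finset.mem_map]
        exact ⟨t, hsome t hx, rfl⟩
    refine (Finset.card_le_card h2).trans ((Finset.card_insert_le _ _).trans ?_)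
    rw [Finset.card_map]
    omega
  · have h2 : (Finset.univ.filter fun x : Option (ZMod p) => uu x a = 0) ⊆
        ((po a).roots.toFinset.map Function.Embedding.some) := by
      intro x hx
      simp only [Finset.mem_filter, Finset.mem_univ, true_and] at hx
      cases x with
      | none => exact (hl hx).elim
      | some t =>
        rw [Finset.mem_map]
        exact ⟨t, hsome t hx, rfl⟩
    refine (Finset.card_le_card h2).trans ?_
    rw [Finset.card_map]
    have := natDegree_po a
    omega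

/-- a positive proportion of the binary forms of degree `e ≥ 2` over `F_p` has no zero -/
theorem count_form {e : ℕ} (he : 2 ≤ e) (hp : 2 * (e + 1) ≤ p) :
    (1 / (2 * e) : ℝ) * (p : ℝ) ^ (e + 1) ≤
      Nat.card {c : Fin (e + 1) → ZMod p // ∀ x, uu x c ≠ 0} := by
  have h1 := count_lin (A := Fin (e + 1) → ZMod p) uu (fun x h => by
      obtain ⟨v, v', hv⟩ := exists_vec (d := e) (p := p) (by omega) x
      apply hv
      rw [h]
      simp) {0} e (by omega)
    (fun a ha => zeros_form (by omega) a ha) (p + 1) (by rw [card_Om]; push_cast; rfl) (by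
      have : (0 : ℝ) ≤ p := Nat.cast_nonneg _
      linarith)
  refine le_trans ?_ h1
  rw [card_A, Nat.card_unique]
  obtain ⟨m, rfl⟩ : ∃ m, e = m + 2 := ⟨e - 2, by omega⟩
  have hp1 : 2 * ((m : ℝ) + 3) ≤ p := by
    have : 2 * (m + 2 + 1) ≤ p := hp
    have h2 : ((2 * (m + 2 + 1) : ℕ) : ℝ) ≤ p := by exact_mod_cast this
    push_cast at h2
    linarith
  have hm0 : (0 : ℝ) ≤ m := Nat.cast_nonneg _
  have hpp : (0 : ℝ) < p := by linarith
  have e1 : (p : ℝ) ^ (m + 2 + 1) / p = (p : ℝ) ^ m * p ^ 2 := by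
    rw [div_eq_iff hpp.ne']
    ring
  have e2 : (p : ℝ) ^ (m + 2 + 1) / (p : ℝ) ^ 2 = (p : ℝ) ^ m * p := by
    rw [div_eq_iff (by positivity)]
    ring
  rw [e1, e2]
  have hB : (1 : ℝ) ≤ (p : ℝ) ^ m := one_le_pow₀ (by linarith)
  set B : ℝ := (p : ℝ) ^ m * p with hBdef
  have hBp : (p : ℝ) ≤ B := by nlinarith
  have e3 : (p : ℝ) ^ (m + 2 + 1) = B * p ^ 2 := by rw [hBdef]; ring
  have e4 : (p : ℝ) ^ m * p ^ 2 = B * p := by rw [hBdef]; ring
  rw [e3, e4]
  push_cast
  have hM : (0 : ℝ) < (m : ℝ) + 2 := by linarith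
  have e5 : B * (p : ℝ) ^ 2 - ((p : ℝ) + 1) * (B * p) +
      ((p : ℝ) + 1) * ((p : ℝ) + 1 - 1) * (B - 1) / ((m : ℝ) + 2) -
      1 / (2 * ((m : ℝ) + 2)) * (B * (p : ℝ) ^ 2) =
      (p / (2 * ((m : ℝ) + 2))) * (B * p + 2 * B - 2 * p - 2 - 2 * ((m : ℝ) + 2) * B) := by
    field_simp
    ring
  have e6 : 0 ≤ B * p + 2 * B - 2 * p - 2 - 2 * ((m : ℝ) + 2) * B := by
    nlinarith
  have e7 : 0 ≤ (p / (2 * ((m : ℝ) + 2))) *
      (B * p + 2 * B - 2 * p - 2 - 2 * ((m : ℝ) + 2) * B) :=
    mul_nonneg (by positivity) e6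
  linarith

theorem count_scale {e : ℕ} (c : Fin (e + 1) → ZMod p) (hc : ∀ i, c i ≠ 0) :
    Nat.card {a : Fin (e + 1) → ZMod p // ∀ x, uu x (fun i => c i * a i) ≠ 0} =
      Nat.card {a : Fin (e + 1) → ZMod p // ∀ x, uu x a ≠ 0} := by
  refine Nat.card_congr ((Equiv.piCongrRight fun i => Equiv.mulLeft₀ (c i) (hc i)).subtypeEquiv
    fun a => ?_)
  rfl

theorem prod_card {N : ℕ} {γ : Fin N → Type} [∀ i, Fintype (γ i)]
    (E : ∀ i : Fin N, Set (γ i → ZMod p)) (δ : Fin N → ℝ) (hδ0 : ∀ i, 0 ≤ δ i)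
    (hδ : ∀ i, δ i * (p : ℝ) ^ Fintype.card (γ i) ≤ (Nat.card (E i) : ℝ)) :
    (∏ i, δ i) * (p : ℝ) ^ Fintype.card (Σ i, γ i) ≤
      (Nat.card {v : (Σ i, γ i) → ZMod p // ∀ i, (fun e => v ⟨i, e⟩) ∈ E i} : ℝ) := by
  have e : {v : (Σ i, γ i) → ZMod p // ∀ i, (fun e => v ⟨i, e⟩) ∈ E i} ≃ (∀ i : Fin N, E i) :=
    { toFun := fun v i => ⟨fun e => v.1 ⟨i, e⟩, v.2 i⟩
      invFun := fun w => ⟨fun q => (w q.1).1 q.2, fun i => (w i).2⟩
      left_inv := fun v => by
        apply Subtype.ext
        funext q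
        rfl
      right_inv := fun w => by
        funext i
        rfl }
  rw [Nat.card_congr e, Nat.card_pi]
  have hc : Fintype.card (Σ i, γ i) = ∑ i, Fintype.card (γ i) := Fintype.card_sigma
  rw [hc, ← Finset.prod_pow_eq_pow_sum, ← Finset.prod_mul_distrib, Nat.cast_prod]
  refine Finset.prod_le_prod ?_ ?_
  · intro i _
    exact mul_nonneg (hδ0 i) (by positivity)
  · intro i _
    exact hδ i

/-- a form without zeros on the projective line -/
theorem form_ne {e : ℕ} {w : Fin (e + 1) → ZMod p} (hw : ∀ x, uu x w ≠ 0) (a b : ZMod p)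
    (hab : ¬ (a = 0 ∧ b = 0)) :
    ∑ i : Fin (e + 1), w i * (a ^ (i : ℕ) * b ^ (e - (i : ℕ))) ≠ 0 := by
  by_cases hb : b = 0
  · subst hb
    have ha : a ≠ 0 := fun h => hab ⟨h, rfl⟩
    rw [Finset.sum_eq_single (Fin.last e)]
    · rw [Fin.val_last, Nat.sub_self, pow_zero, mul_one]
      exact mul_ne_zero (hw none) (pow_ne_zero _ ha)
    · intro i _ hi
      have h1 : (i : ℕ) ≠ e := fun h => hi (Fin.ext (by rw [h, Fin.val_last]))
      have h2 := i.2
      rw [zero_pow (by omega), mul_zero, mul_zero]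
    · intro h
      exact absurd (Finset.mem_univ _) h
  · have h1 := hw (some (a / b))
    have h2 : ∑ i : Fin (e + 1), w i * (a ^ (i : ℕ) * b ^ (e - (i : ℕ))) =
        b ^ e * uu (some (a / b)) w := by
      simp only [uu, LinearMap.sum_apply, LinearMap.smul_apply, LinearMap.proj_apply, smul_eq_mul]
      rw [Finset.mul_sum]
      refine Finset.sum_congr rfl fun i _ => ?_
      have h3 := i.2
      have h4 : b ^ e = b ^ (e - (i : ℕ)) * b ^ (i : ℕ) := by
        rw [← pow_add]
        congr 1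
        omega
      rw [h4, div_pow]
      field_simp
    rw [h2]
    exact mul_ne_zero (pow_ne_zero _ hb) h1

end

/-- the coefficient vectors for which some of the forms has a zero, for all primes of `P` -/
def BadF {k : ℕ} (e : Fin k → ℕ) (c : Jdx k e → ℤ) (P : Set ℕ) : Set (Jdx k e → ℤ) :=
  {v | ∀ p ∈ P, ¬ ∃ _ : Fact p.Prime,
    ∀ (j : Fin k) (x : Option (ZMod p)), uu x (fun i => ((c ⟨j, i⟩ * v ⟨j, i⟩ : ℤ) : ZMod p)) ≠ 0}

theorem badF_null {k : ℕ} {e : Fin k → ℕ} (he : ∀ j, 2 ≤ e j) {c : Jdx k e → ℤ}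
    (hc : ∀ q, c q ≠ 0) (P : Pr) : ProNull (BadF e c P.C) := by
  classical
  have h1 := crit (Jdx k e) (fun p => p) (fun p hp => hp.one_lt.le)
    (fun p p' hp hp' hne => (Nat.coprime_primes hp hp').2 hne)
    (fun p => {w : Jdx k e → ZMod p | p ∈ P.C ∧ ∃ _ : Fact p.Prime,
      ∀ (j : Fin k) (x : Option (ZMod p)), uu x (fun i => (c ⟨j, i⟩ : ZMod p) * w ⟨j, i⟩) ≠ 0})
    (∑ j, 2 * (e j + 1) + ∑ q, (c q).natAbs)
    (fun p => if p ∈ P.C then ∏ j : Fin k, (1 / (2 * (e j : ℝ))) else 0)
    (fun p => by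
      split_ifs
      · exact Finset.prod_nonneg fun j _ => by positivity
      · exact le_rfl)
    (not_summable P.infinite (fun p hp => P.prime hp) (Finset.prod_pos fun j _ => by
      have : (2 : ℝ) ≤ e j := by exact_mod_cast he j
      positivity))
    (by
      intro p hp hT
      have hpp : Fact p.Prime := ⟨hp⟩
      split_ifs with hpP
      · have hcp : ∀ q, ((c q : ℤ) : ZMod p) ≠ 0 := by
          intro q h
          rw [ZMod.intCast_zmod_eq_zero_iff_dvd] at h
          have h1 := Nat.le_of_dvd (Int.natAbs_pos.2 (hc q)) (Int.natCast_dvd.1 h)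
          have h2 : (c q).natAbs ≤ ∑ q, (c q).natAbs := Finset.single_le_sum
            (f := fun q => (c q).natAbs) (fun _ _ => Nat.zero_le _) (Finset.mem_univ q)
          omega
        have h2 := prod_card (p := p) (N := k) (γ := fun j => Fin (e j + 1))
          (fun j => {w | ∀ x, uu x (fun i => (c ⟨j, i⟩ : ZMod p) * w i) ≠ 0})
          (fun j => 1 / (2 * (e j : ℝ))) (fun j => by positivity)
          (fun j => by
            rw [Fintype.card_fin]
            have h3 := count_scale (fun i : Fin (e j + 1) => ((c ⟨j, i⟩ : ℤ) : ZMod p))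
              (fun i => hcp _)
            have h4 := count_form (p := p) (he j) (by
              have h3 : 2 * (e j + 1) ≤ ∑ j, 2 * (e j + 1) := Finset.single_le_sum
                (f := fun j => 2 * (e j + 1)) (fun _ _ => Nat.zero_le _) (Finset.mem_univ j)
              omega)
            rw [← h3] at h4
            exact h4)
        refine h2.trans (le_of_eq ?_)
        rw [← Nat.card_coe_set_eq]
        congr 1
        refine Nat.card_congr (Equiv.subtypeEquivRight fun w => ?_)
        exact ⟨fun h => ⟨hpP, hpp, h⟩, fun h => h.2.2⟩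
      · rw [zero_mul]
        exact Nat.cast_nonneg _)
  refine (clo (Jdx k e)).1 _ _ ?_ h1
  intro v hv p hp hT hmem
  refine hv p hmem.1 ?_
  obtain ⟨hpp, h⟩ := hmem.2
  refine ⟨hpp, fun j x => ?_⟩
  have h3 := h j x
  simp only [Int.cast_mul]
  exact h3

end Pool.Agent.U100.KC
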