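import Pool.Agent.H927R2.RD.T12
import Pool.Agent.H927R2.RD.T13
import Pool.Agent.H927R2.RD.T14
import Pool.Agent.H927R2.RD.T15a
import Pool.Agent.H927R2.RD.Final2

/-!
# Embeddings of finitely generated rings in the rings of `p`-adic integers (helper file)

The embeddings of finitely generated fields in `ℚ_p` of `Pool.Agent.H927R2.RD.T15a` are integral on a
given finite set if `p` does not divide one more integer.
-/

set_option autoImplicit false

namespace Pool.Agent.U100.KC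

open MvPolynomial Pool.Agent.H936R2
open Pool.Agent.H927R2.RD

/-- an element of `ℚ(t)(θ)` as a quotient of a polynomial in `t`, `θ` by one in `t` -/
theorem rep {r : ℕ} {t : Fin r → ℂ} (ht : AlgebraicIndependent ℚ t) {θ : ℂ}
    (hθ : IsIntegral (IntermediateField.adjoin ℚ (Set.range t)) θ) (x : ℂ)
    (hx : x ∈ IntermediateField.adjoin (IntermediateField.adjoin ℚ (Set.range t)) {θ}) :
    ∃ (b : MvPolynomial (Fin r) ℤ) (Q : Polynomial (MvPolynomial (Fin r) ℤ)), b ≠ 0 ∧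
      ((toAdj t b : IntermediateField.adjoin ℚ (Set.range t)) : ℂ) * x =
        Polynomial.aeval θ (Q.map (toAdj t)) := by
  set F := IntermediateField.adjoin ℚ (Set.range t) with hF
  letI : Algebra (MvPolynomial (Fin r) ℤ) F := (toAdj t).toAlgebra
  have halg : algebraMap (MvPolynomial (Fin r) ℤ) F = toAdj t := rfl
  have hinj : Function.Injective (algebraMap (MvPolynomial (Fin r) ℤ) F) :=
    T14.toAdj_injective t ht
  haveI : FaithfulSMul (MvPolynomial (Fin r) ℤ) F :=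
    (faithfulSMul_iff_algebraMap_injective _ _).mpr hinj
  haveI : IsFractionRing (MvPolynomial (Fin r) ℤ) F :=
    IsFractionRing.of_field _ _ (T14.toAdj_surj t)
  have h1 : x ∈ (IntermediateField.adjoin F {θ}).toSubalgebra := hx
  rw [IntermediateField.adjoin_simple_toSubalgebra_of_isAlgebraic hθ.isAlgebraic,
    Algebra.adjoin_singleton_eq_range_aeval] at h1
  obtain ⟨q, hq⟩ := h1
  obtain ⟨b, hb, h⟩ := IsLocalization.integerNormalization_spec
    (nonZeroDivisors (MvPolynomial (Fin r) ℤ)) q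
  refine ⟨b, IsLocalization.integerNormalization (nonZeroDivisors (MvPolynomial (Fin r) ℤ)) q,
    mem_nonZeroDivisors_iff_ne_zero.mp hb, ?_⟩
  have h0 : Polynomial.map (toAdj t) (IsLocalization.integerNormalization
      (nonZeroDivisors (MvPolynomial (Fin r) ℤ)) q) = b • q := h
  rw [h0, Algebra.smul_def]
  have h2 : (algebraMap (MvPolynomial (Fin r) ℤ) (Polynomial F)) b =
      Polynomial.C (toAdj t b) := rfl
  rw [h2, map_mul, Polynomial.aeval_C]
  have h3 : Polynomial.aeval θ q = x := hq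
  rw [h3]
  rfl

/-- the core: a simple root modulo `p` gives an embedding which is integral on `s` -/
theorem core {s : Finset ℂ} {r : ℕ} {t : Fin r → ℂ} {θ : ℂ}
    {P : Polynomial (MvPolynomial (Fin r) ℤ)} {g q : MvPolynomial (Fin r) ℤ}
    (ht : AlgebraicIndependent ℚ t) (hg : g ≠ 0)
    (hθ : IsIntegral (IntermediateField.adjoin ℚ (Set.range t)) θ)
    (hP : P.map (toAdj t) = Polynomial.C (toAdj t g) *
        minpoly (IntermediateField.adjoin ℚ (Set.range t)) θ)
    (hs : ∀ x ∈ s, x ∈ IntermediateField.adjoin (IntermediateField.adjoin ℚ (Set.range t)) {θ})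
    (hq : ∀ x ∈ s, ∃ Q : Polynomial (MvPolynomial (Fin r) ℤ),
      ((toAdj t q : IntermediateField.adjoin ℚ (Set.range t)) : ℂ) * x =
        Polynomial.aeval θ (Q.map (toAdj t)))
    (a : Fin r → ℤ) {p : ℕ} [Fact p.Prime] {b : ℤ}
    (hqa : ¬ (p : ℤ) ∣ MvPolynomial.eval a q)
    (hb : (p : ℤ) ∣ (P.map (MvPolynomial.eval a)).eval b)
    (hb' : ¬ (p : ℤ) ∣ (Polynomial.derivative (P.map (MvPolynomial.eval a))).eval b)
    (t' : Fin r → ℤ_[p]) (ht' : AlgebraicIndependent ℚ (fun i => (t' i : ℚ_[p])))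
    (ht'a : ∀ i, (PadicInt.toZMod (t' i) : ZMod p) = (a i : ZMod p)) :
    ∃ φ : Subfield.closure (s : Set ℂ) →+* ℚ_[p], ∀ x : Subfield.closure (s : Set ℂ),
      (x : ℂ) ∈ s → ‖φ x‖ ≤ 1 := by
  classical
  set φ : MvPolynomial (Fin r) ℤ →+* ℤ_[p] := MvPolynomial.eval₂Hom (Int.castRingHom ℤ_[p]) t'
    with hφ
  set F : Polynomial ℤ_[p] := P.map φ with hF
  have hcomp : (PadicInt.toZMod (p := p)).comp φ =
      (Int.castRingHom (ZMod p)).comp (MvPolynomial.eval a) := by
    apply MvPolynomial.ringHom_ext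
    · intro n
      simp [hφ]
    · intro i
      simp [hφ, ht'a]
  have hred : ∀ Q : Polynomial (MvPolynomial (Fin r) ℤ),
      PadicInt.toZMod ((Q.map φ).eval (b : ℤ_[p])) =
        (((Q.map (MvPolynomial.eval a)).eval b : ℤ) : ZMod p) := by
    intro Q
    have h1 : PadicInt.toZMod ((Q.map φ).eval (b : ℤ_[p])) =
        ((Q.map φ).map PadicInt.toZMod).eval (PadicInt.toZMod (b : ℤ_[p])) := by
      rw [Polynomial.eval_map_apply]
    have h2 : (((Q.map (MvPolynomial.eval a)).eval b : ℤ) : ZMod p) =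
        ((Q.map (MvPolynomial.eval a)).map (Int.castRingHom (ZMod p))).eval
          ((Int.castRingHom (ZMod p)) b) := by
      rw [Polynomial.eval_map_apply]; rfl
    rw [h1, h2, Polynomial.map_map, Polynomial.map_map, hcomp]
    simp
  have hunit : ∀ x : ℤ_[p], PadicInt.toZMod x ≠ 0 → ‖x‖ = 1 := by
    intro x h1
    by_contra hne
    apply h1
    have h2 : x ∈ RingHom.ker (PadicInt.toZMod (p := p)) := by
      rw [PadicInt.ker_toZMod, IsLocalRing.mem_maximalIdeal, PadicInt.mem_nonunits]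
      exact lt_of_le_of_ne (PadicInt.norm_le_one _) hne
    exact h2
  have hroot0 : ‖F.eval (b : ℤ_[p])‖ < 1 := by
    have h1 : PadicInt.toZMod (F.eval (b : ℤ_[p])) = 0 := by
      rw [hF, hred, ZMod.intCast_zmod_eq_zero_iff_dvd]
      exact hb
    have h2 : F.eval (b : ℤ_[p]) ∈ RingHom.ker (PadicInt.toZMod (p := p)) := h1
    rw [PadicInt.ker_toZMod, IsLocalRing.mem_maximalIdeal, PadicInt.mem_nonunits] at h2
    exact h2
  have hder1 : ‖F.derivative.eval (b : ℤ_[p])‖ = 1 := by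
    apply hunit
    rw [hF, Polynomial.derivative_map, hred, ← Polynomial.derivative_map, Ne,
      ZMod.intCast_zmod_eq_zero_iff_dvd]
    exact hb'
  have hqu : ‖φ q‖ = 1 := by
    apply hunit
    have h1 := congrArg (fun f : MvPolynomial (Fin r) ℤ →+* ZMod p => f q) hcomp
    simp only [RingHom.comp_apply] at h1
    rw [h1, eq_intCast, Ne, ZMod.intCast_zmod_eq_zero_iff_dvd]
    exact hqa
  obtain ⟨z, hz, -⟩ := hensels_lemma (p := p) (F := F) (a := (b : ℤ_[p])) (by
    rw [Polynomial.coe_aeval_eq_eval]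
    show ‖F.eval (b : ℤ_[p])‖ < ‖F.derivative.eval (b : ℤ_[p])‖ ^ 2
    rw [hder1]
    simpa using hroot0)
  rw [Polynomial.coe_aeval_eq_eval] at hz
  -- the field embedding
  set K := IntermediateField.adjoin ℚ (Set.range t) with hK
  let ψ : K →+* ℚ_[p] := (T15.psi ht ht' : K →+* ℚ_[p])
  have hψ : ∀ g' : MvPolynomial (Fin r) ℤ, ψ (toAdj t g') = ((φ g' : ℤ_[p]) : ℚ_[p]) := by
    intro g'
    have h1 := T15.psi_toAdj ht ht' g'
    rw [show ψ (toAdj t g') = T15.psi ht ht' (toAdj t g') from rfl, h1]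
    have h2 : (PadicInt.Coe.ringHom (p := p)).comp φ =
        MvPolynomial.eval₂Hom (Int.castRingHom ℚ_[p]) (fun i => (t' i : ℚ_[p])) := by
      apply MvPolynomial.ringHom_ext
      · intro n
        simp [hφ]
      · intro i
        simp only [hφ, RingHom.comp_apply, coe_eval₂Hom, eval₂_X]
        rfl
    exact (congrArg (fun f : MvPolynomial (Fin r) ℤ →+* ℚ_[p] => f g') h2).symm
  have hev : ∀ Q : Polynomial (MvPolynomial (Fin r) ℤ),
      ((Q.map (toAdj t)).map ψ).eval (z : ℚ_[p]) = (((Q.map φ).eval z : ℤ_[p]) : ℚ_[p]) := by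
    intro Q
    have h1 : (Q.map (toAdj t)).map ψ = (Q.map φ).map (PadicInt.Coe.ringHom (p := p)) := by
      have hh : ψ.comp (toAdj t) = (PadicInt.Coe.ringHom (p := p)).comp φ := RingHom.ext hψ
      rw [Polynomial.map_map, Polynomial.map_map, hh]
    rw [h1]
    have : (z : ℚ_[p]) = PadicInt.Coe.ringHom z := rfl
    rw [this, Polynomial.eval_map_apply]
    rfl
  have hmin : ((minpoly K θ).map ψ).eval (z : ℚ_[p]) = 0 := by
    have h2 : ((P.map (toAdj t)).map ψ).eval (z : ℚ_[p]) = 0 := by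
      rw [hev, hz]
      rfl
    rw [hP, Polynomial.map_mul, Polynomial.map_C, Polynomial.eval_mul, Polynomial.eval_C] at h2
    have h3 : ψ (toAdj t g) ≠ 0 := by
      rw [Ne, map_eq_zero]
      intro h0
      exact hg (T15.toAdj_injective ht (by rw [h0, map_zero]))
    exact (mul_eq_zero.1 h2).resolve_left h3
  let _ : Algebra K ℚ_[p] := ψ.toAlgebra
  have hmem : (z : ℚ_[p]) ∈ (minpoly K θ).aroots ℚ_[p] := by
    rw [Polynomial.mem_aroots]
    refine ⟨minpoly.ne_zero hθ, ?_⟩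
    rw [Polynomial.aeval_def, Polynomial.eval₂_eq_eval_map]
    exact hmin
  let χ : IntermediateField.adjoin K {θ} →ₐ[K] ℚ_[p] :=
    (IntermediateField.algHomAdjoinIntegralEquiv K hθ).symm ⟨(z : ℚ_[p]), hmem⟩
  have hχθ : χ (IntermediateField.AdjoinSimple.gen K θ) = (z : ℚ_[p]) :=
    IntermediateField.algHomAdjoinIntegralEquiv_symm_apply_gen K hθ ⟨(z : ℚ_[p]), hmem⟩
  have hle : Subfield.closure (s : Set ℂ) ≤ (IntermediateField.adjoin K {θ}).toSubfield := by
    rw [Subfield.closure_le]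
    intro x hx
    exact hs x hx
  refine ⟨(χ : IntermediateField.adjoin K {θ} →+* ℚ_[p]).comp (Subfield.inclusion hle),
    fun x hx => ?_⟩
  obtain ⟨Q, hQ⟩ := hq _ hx
  have h1 : (algebraMap K (IntermediateField.adjoin K {θ}) (toAdj t q)) *
      (Subfield.inclusion hle x : IntermediateField.adjoin K {θ}) =
      Polynomial.aeval (IntermediateField.AdjoinSimple.gen K θ) (Q.map (toAdj t)) := by
    apply (algebraMap (IntermediateField.adjoin K {θ}) ℂ).injective
    rw [← Polynomial.aeval_algebraMap_apply, IntermediateField.AdjoinSimple.algebraMap_gen, ← hQ,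
      map_mul]
    rfl
  have h2 := congrArg χ h1
  rw [map_mul, AlgHom.commutes, ← Polynomial.aeval_algHom_apply, hχθ, Polynomial.aeval_def,
    Polynomial.eval₂_eq_eval_map] at h2
  have h3 : (algebraMap K ℚ_[p]) (toAdj t q) = ((φ q : ℤ_[p]) : ℚ_[p]) := hψ q
  rw [h3] at h2
  have h4 : ((Q.map (toAdj t)).map (algebraMap K ℚ_[p])).eval (z : ℚ_[p]) =
      (((Q.map φ).eval z : ℤ_[p]) : ℚ_[p]) := hev Q
  rw [h4] at h2
  have h5 := congrArg (fun y : ℚ_[p] => ‖y‖) h2
  simp only [norm_mul] at h5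
  have h6 : ‖((φ q : ℤ_[p]) : ℚ_[p])‖ = 1 := hqu
  rw [h6, one_mul] at h5
  have h7 : ‖(((χ : IntermediateField.adjoin K {θ} →+* ℚ_[p]).comp (Subfield.inclusion hle)) x)‖ =
      ‖χ (Subfield.inclusion hle x : IntermediateField.adjoin K {θ})‖ := rfl
  rw [h7, h5]
  exact PadicInt.norm_le_one _

/-- finitely generated rings embed in `ℤ_p` for the primes of degree one of a number field -/
theorem exists_int_embedding (s : Finset ℂ) :
    ∃ (K : Type) (_ : Field K) (_ : NumberField K) (S : Finset ℕ), ∀ (p : ℕ) [Fact p.Prime],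
      p ∉ S → DegOne K p → ∃ φ : Subfield.closure (s : Set ℂ) →+* ℚ_[p],
        ∀ x : Subfield.closure (s : Set ℂ), (x : ℂ) ∈ s → ‖φ x‖ ≤ 1 := by
  classical
  obtain ⟨r, t, θ, P, u, v, g, h, ht, hg, hh, hθ, hP, hbez, hs⟩ := exists_presentation s
  choose! bb QQ hb0 hbQ using fun (x : ℂ) (hx : x ∈ s) => rep ht hθ x (hs x hx)
  obtain ⟨q, hqdef⟩ : ∃ q : MvPolynomial (Fin r) ℤ, q = ∏ x ∈ s, bb x := ⟨_, rfl⟩
  have hq0 : q ≠ 0 := by
    rw [hqdef]
    exact Finset.prod_ne_zero_iff.2 fun x hx => hb0 x hx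
  have hq : ∀ x ∈ s, ∃ Q : Polynomial (MvPolynomial (Fin r) ℤ),
      ((toAdj t q : IntermediateField.adjoin ℚ (Set.range t)) : ℂ) * x =
        Polynomial.aeval θ (Q.map (toAdj t)) := by
    intro x hx
    refine ⟨Polynomial.C (∏ y ∈ s.erase x, bb y) * QQ x, ?_⟩
    rw [hqdef, ← Finset.prod_erase_mul s bb hx, map_mul, Polynomial.map_mul, map_mul,
      Polynomial.map_C, Polynomial.aeval_C, ← hbQ x hx]
    have e1 : (((toAdj t (∏ y ∈ s.erase x, bb y)) * toAdj t (bb x) :
        IntermediateField.adjoin ℚ (Set.range t)) : ℂ) =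
        ((toAdj t (∏ y ∈ s.erase x, bb y) : IntermediateField.adjoin ℚ (Set.range t)) : ℂ) *
        ((toAdj t (bb x) : IntermediateField.adjoin ℚ (Set.range t)) : ℂ) := rfl
    rw [e1, mul_assoc]
    rfl
  obtain ⟨a, ha⟩ := T15.exists_eval_ne (g * h * q) (mul_ne_zero (mul_ne_zero hg hh) hq0)
  rw [map_mul, map_mul] at ha
  have hqa : MvPolynomial.eval a q ≠ 0 := right_ne_zero_of_mul ha
  have hga : MvPolynomial.eval a g ≠ 0 := left_ne_zero_of_mul (left_ne_zero_of_mul ha)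
  have hha : MvPolynomial.eval a h ≠ 0 := right_ne_zero_of_mul (left_ne_zero_of_mul ha)
  have hinj := T15.toAdj_injective ht
  have hgt : toAdj t g ≠ 0 := by
    intro h0
    exact hg (hinj (by rw [h0, map_zero]))
  have hnat : P.natDegree = (minpoly (IntermediateField.adjoin ℚ (Set.range t)) θ).natDegree := by
    rw [← Polynomial.natDegree_map_eq_of_injective hinj, hP, Polynomial.natDegree_C_mul hgt]
  have hlead : P.leadingCoeff = g := by
    apply hinj
    rw [← Polynomial.leadingCoeff_map_of_injective hinj, hP, Polynomial.leadingCoeff_mul,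
      Polynomial.leadingCoeff_C, (minpoly.monic hθ).leadingCoeff, mul_one]
  have hdeg : 0 < (P.map (MvPolynomial.eval a)).natDegree := by
    rw [Polynomial.natDegree_map_of_leadingCoeff_ne_zero _ (by rw [hlead]; exact hga), hnat]
    exact minpoly.natDegree_pos hθ
  have hb : u.map (MvPolynomial.eval a) * P.map (MvPolynomial.eval a) +
      v.map (MvPolynomial.eval a) * Polynomial.derivative (P.map (MvPolynomial.eval a)) =
      Polynomial.C (MvPolynomial.eval a h) := by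
    rw [Polynomial.derivative_map, ← Polynomial.map_mul, ← Polynomial.map_mul,
      ← Polynomial.map_add, hbez, Polynomial.map_C]
  obtain ⟨K, hK1, hK2, S, hS⟩ := exists_simple_root _ _ _ _ hha hdeg hb
  refine ⟨K, hK1, hK2, S ∪ (MvPolynomial.eval a q).natAbs.primeFactors, ?_⟩
  intro p hp hpS hdeg1
  rw [Finset.mem_union, not_or] at hpS
  obtain ⟨b, hb1, hb2⟩ := hS p hpS.1 hdeg1
  obtain ⟨t', ht', ht'a⟩ := exists_indep p r a
  refine core ht hg hθ hP hs hq a ?_ hb1 hb2 t' ht' ht'a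
  intro hdvd
  apply hpS.2
  rw [Nat.mem_primeFactors]
  exact ⟨hp.out, Int.natCast_dvd.1 hdvd, Int.natAbs_ne_zero.2 hqa⟩

theorem toInt {p : ℕ} [Fact p.Prime] {A : Type} [CommRing A] (f : A →+* ℚ_[p])
    (h : ∀ x, ‖f x‖ ≤ 1) : ∃ ρ : A →+* ℤ_[p], ∀ x, ((ρ x : ℤ_[p]) : ℚ_[p]) = f x :=
  ⟨{ toFun := fun x => ⟨f x, h x⟩
     map_one' := PadicInt.ext (map_one f)
     map_zero' := PadicInt.ext (map_zero f)
     map_add' := fun x y => PadicInt.ext (map_add f x y)
     map_mul' := fun x y => PadicInt.ext (map_mul f x y) }, fun _ => rfl⟩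

theorem sub_le (s : Finset ℂ) (x : ℂ) (hx : x ∈ Subring.closure (s : Set ℂ)) :
    x ∈ Subfield.closure (s : Set ℂ) := by
  have h1 : Subring.closure (s : Set ℂ) ≤ (Subfield.closure (s : Set ℂ)).toSubring := by
    rw [Subring.closure_le]
    intro x hx
    exact Subfield.subset_closure hx
  exact h1 hx

theorem norm_closure {p : ℕ} [Fact p.Prime] (s : Finset ℂ)
    (φ : Subfield.closure (s : Set ℂ) →+* ℚ_[p])
    (hφ : ∀ x : Subfield.closure (s : Set ℂ), (x : ℂ) ∈ s → ‖φ x‖ ≤ 1) (x : ℂ)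
    (hx : x ∈ Subring.closure (s : Set ℂ)) : ‖φ ⟨x, sub_le s x hx⟩‖ ≤ 1 := by
  let O : Subring ℂ := ((PadicInt.subring p).comap φ).map (Subfield.closure (s : Set ℂ)).subtype
  have h1 : Subring.closure (s : Set ℂ) ≤ O := by
    rw [Subring.closure_le]
    intro y hy
    exact ⟨⟨y, Subfield.subset_closure hy⟩, hφ _ hy, rfl⟩
  obtain ⟨y, hy, hyx⟩ := h1 hx
  have h2 : y = ⟨x, sub_le s x hx⟩ := Subtype.ext hyx
  rw [← h2]
  exact hy

theorem exists_incl (s : Finset ℂ) :
    ∃ ι : Subring.closure (s : Set ℂ) →+* Subfield.closure (s : Set ℂ),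
      ∀ x, ((ι x : Subfield.closure (s : Set ℂ)) : ℂ) = x :=
  ⟨(Subring.closure (s : Set ℂ)).subtype.codRestrict (Subfield.closure (s : Set ℂ))
    (fun x => sub_le s x x.2), fun x => RingHom.codRestrict_apply _ _ _ x⟩

theorem exists_rho {p : ℕ} [Fact p.Prime] (s : Finset ℂ)
    (φ : Subfield.closure (s : Set ℂ) →+* ℚ_[p])
    (hφ : ∀ x : Subfield.closure (s : Set ℂ), (x : ℂ) ∈ s → ‖φ x‖ ≤ 1)
    (τ : ℂ →+* PadicAlgCl p)
    (hτ : ∀ x : Subfield.closure (s : Set ℂ), τ x = algebraMap ℚ_[p] (PadicAlgCl p) (φ x)) :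
    ∃ ρ : Subring.closure (s : Set ℂ) →+* ℤ_[p], ∀ x : Subring.closure (s : Set ℂ),
      τ x = algebraMap ℚ_[p] (PadicAlgCl p) ((ρ x : ℤ_[p]) : ℚ_[p]) := by
  obtain ⟨ι, hι⟩ := exists_incl s
  obtain ⟨ρ, hρ⟩ := toInt (φ.comp ι) (fun x => by
    have h1 : ι x = ⟨x, sub_le s x x.2⟩ := Subtype.ext (hι x)
    rw [RingHom.comp_apply, h1]
    exact norm_closure s φ hφ x x.2)
  refine ⟨ρ, fun x => ?_⟩
  have h2 := hτ (ι x)
  rw [hι] at h2
  rw [h2, hρ]
  rfl

/-- the same, with an extension to `ℂ` -/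
theorem exists_local_int (s : Finset ℂ) :
    ∃ (K : Type) (_ : Field K) (_ : NumberField K) (S : Finset ℕ), ∀ (p : ℕ) [Fact p.Prime],
      p ∉ S → DegOne K p → ∃ (τ : ℂ →+* PadicAlgCl p)
        (ρ : Subring.closure (s : Set ℂ) →+* ℤ_[p]), ∀ x : Subring.closure (s : Set ℂ),
          τ x = algebraMap ℚ_[p] (PadicAlgCl p) ((ρ x : ℤ_[p]) : ℚ_[p]) := by
  obtain ⟨K, i1, i2, S, h⟩ := exists_int_embedding s
  refine ⟨K, i1, i2, S, fun p _ hS hp => ?_⟩
  obtain ⟨φ, hφ⟩ := h p hS hp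
  obtain ⟨τ, hτ⟩ := extend_embedding p _ (countable_closure s) φ
  obtain ⟨ρ, hρ⟩ := exists_rho s φ hφ τ hτ
  exact ⟨τ, ρ, hρ⟩

end Pool.Agent.U100.KC
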